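import Mathlib
import Pool.Agent.Q173.CG.Defs
import Pool.Agent.Q173.CG.Example

/-!
# Independence complexes of circle graphs need not be wedges of spheres

The chord diagram with the 15 chords `{3 k, 3 k + 15}` (`k` modulo 5) and `{3 j + 2, 3 j + 10}`
(`j` modulo 10) of the 30 points `ℤ/30` on the circle has a circle graph whose independence complex
is not homotopy equivalent to any wedge of spheres.

The proof: for two circle valued maps `φ, ψ` on a space the vanishing of the cup product of their
classes is expressed by a function `u` on the infinite cyclic cover of `φ` with
`u (y, s + 1) = u (y, s) + ψ y`. This is invariant under homotopy equivalence and true for all pairs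
on a wedge of spheres, but false for two maps on the complex given by integer cocycles.
-/

set_option autoImplicit false

namespace Pool.Agent.Results.MP_dce81a_co.TorusCircleGraph

open Q173.CG

/-- **Main theorem.** There is a circle graph (on 15 vertices) whose independence complex is not
homotopy equivalent to any finite wedge of spheres (of possibly different dimensions). -/
theorem result : ∃ G : SimpleGraph (Fin 15), IsCircleGraph G ∧
    ∀ (k : ℕ) (d : Fin k → ℕ),
      IsEmpty (ContinuousMap.HomotopyEquiv (IndepComplex G) (Wedge d)) := by
  refine ⟨torusGraph, isCircleGraph, fun k d => ⟨fun e => ?_⟩⟩
  exact not_splits (splits_of_homotopyEquiv e (splits_wedge_spheres d) _ _)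

end Pool.Agent.Results.MP_dce81a_co.TorusCircleGraph
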